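import Pool.Agent.W2helper5.QD.Stm

/-!
# Project QD, piece BASIC
-/

set_option autoImplicit false

namespace Pool.Agent.W2helper17.QD

open MeasureTheory Set Pool.V11275.Quad Pool.Agent.Helper717.Hull1 Pool.Agent.Helper717.Hull2
open Pool.Agent.W2helper5.QD

variable {R : Set E2}

theorem spec (h : Body R) (θ : ℝ) : H R (e θ) (hh R θ) = M R / 2 :=
  Classical.epsilon_spec (H_exists h (e θ) (e_ne θ))

theorem uniq (h : Body R) (a : E2) {c c' : ℝ} (h1 : H R a c = M R / 2)
    (h2 : H R a c' = M R / 2) : c = c' := by
  have hM := M_pos h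
  rcases lt_trichotomy c c' with hc | hc | hc
  · have := H_strict h a hc (by rw [h2]; linarith) (by rw [h1]; linarith)
    rw [h1, h2] at this
    exact absurd this (lt_irrefl _)
  · exact hc
  · have := H_strict h a hc (by rw [h1]; linarith) (by rw [h2]; linarith)
    rw [h1, h2] at this
    exact absurd this (lt_irrefl _)

theorem cont_e : Continuous e := by
  unfold e
  fun_prop

/-- **BASIC** -/
theorem BASIC : P_BASIC := by
  intro R h
  have hcont : Continuous (hh R) := by
    obtain ⟨c, hc, hcs⟩ := exists_bis h e cont_e e_ne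
    have : hh R = c := funext fun θ => uniq h (e θ) (spec h θ) (hcs θ)
    rw [this]
    exact hc
  have hpi : ∀ θ, hh R (θ + Real.pi) = - hh R θ := by
    intro θ
    symm
    refine uniq h (e (θ + Real.pi)) ?_ (spec h _)
    have s := split h univ (e θ) (e_ne θ) (hh R θ)
    rw [univ_inter, univ_inter] at s
    have hset : {x : E2 | - hh R θ ≤ dot (e (θ + Real.pi)) x} =
        {x | dot (e θ) x ≤ hh R θ} := by
      ext x
      rw [e_add_pi]
      have e1 : dot (-e θ) x = - dot (e θ) x := by
        simp only [dot, PiLp.neg_apply]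
        ring
      simp only [mem_ofPred_eq, e1]
      exact neg_le_neg_iff
    have h1 := spec h θ
    unfold H at h1 ⊢
    unfold M at h1 ⊢
    rw [hset]
    linarith
  refine ⟨spec h, fun θ c hc => uniq h _ hc (spec h θ), hcont, hpi, ?_, ?_⟩
  · have := h.fin
    unfold G
    refine Continuous.sub ?_ continuous_const
    rw [continuous_iff_continuousAt]
    intro t0
    have hsh : Continuous fun θ : ℝ => θ + Real.pi / 2 := by fun_prop
    exact cont_quad (mu R) (mu_ac R) (a := e) (b := fun θ => e (θ + Real.pi / 2))
      (c := hh R) (d := fun θ => hh R (θ + Real.pi / 2)) (t0 := t0) cont_e.continuousAt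
      (cont_e.comp hsh).continuousAt hcont.continuousAt (hcont.comp hsh).continuousAt
      (e_ne _) (e_ne _)
  · intro θ
    have e2 : θ + Real.pi / 2 + Real.pi / 2 = θ + Real.pi := by ring
    obtain ⟨-, h2, -⟩ := pieces h (e_ne θ) (e_ne (θ + Real.pi / 2)) (spec h θ)
      (spec h (θ + Real.pi / 2))
    have h3 : App R (e (θ + Real.pi / 2)) (e (θ + Real.pi)) (hh R (θ + Real.pi / 2))
        (hh R (θ + Real.pi)) = Amp R (e θ) (e (θ + Real.pi / 2)) (hh R θ)
        (hh R (θ + Real.pi / 2)) := by
      unfold App Amp
      congr 1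
      ext x
      rw [e_add_pi, hpi]
      have e1 : dot (-e θ) x = - dot (e θ) x := by
        simp only [dot, PiLp.neg_apply]
        ring
      simp only [mem_inter_iff, mem_ofPred_eq, e1]
      rw [neg_le_neg_iff, and_comm]
    unfold G
    rw [e2, h3, h2]
    ring

end Pool.Agent.W2helper17.QD
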