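import Pool.Agent.W2helper5.QD.Stm

/-!
# Project QD, piece SIM: similarities preserve the number of quadrisections
-/

set_option autoImplicit false

namespace Pool.Agent.W2helper17.QD

open MeasureTheory Set Pool.V11275.Quad Pool.Agent.Helper717.Hull1 Pool.Agent.Helper717.Hull2
open Pool.Agent.W2helper5.QD
open scoped Pointwise

/-- normal form of a similarity -/
theorem exists_form {f : E2 → E2} {r : ℝ} (hr : 0 < r)
    (hf : ∀ x y, dist (f x) (f y) = r * dist x y) :
    ∃ L : E2 ≃ₗᵢ[ℝ] E2, ∀ x y, f (x + y) = f x + r • L y := by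
  have hg : Isometry fun x => r⁻¹ • f x := by
    refine Isometry.of_dist_eq fun x y => ?_
    rw [dist_smul₀, hf, norm_inv, Real.norm_of_nonneg hr.le, ← mul_assoc,
      inv_mul_cancel₀ hr.ne', one_mul]
  let A := hg.affineIsometryOfStrictConvexSpace
  refine ⟨A.linearIsometry.toLinearIsometryEquiv rfl, fun x y => ?_⟩
  have h1 : r⁻¹ • f (x + y) = A.linearIsometry y + r⁻¹ • f x := by
    have h2 := A.map_vadd x y
    simp only [vadd_eq_add] at h2
    have h3 : ∀ z, A z = r⁻¹ • f z := fun z => rfl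
    rw [h3, h3, add_comm y x] at h2
    exact h2
  have h4 : f (x + y) = r • (A.linearIsometry y + r⁻¹ • f x) := by
    rw [← h1, smul_smul, mul_inv_cancel₀ hr.ne', one_smul]
  rw [h4, smul_add, smul_smul, mul_inv_cancel₀ hr.ne', one_smul, add_comm]
  rfl

/-- a linear isometry of the plane commutes or anticommutes with the rotation -/
theorem sign_form (L : E2 ≃ₗᵢ[ℝ] E2) :
    (∀ x, L (rot x) = rot (L x)) ∨ ∀ x, L (rot x) = - rot (L x) := by
  set p : E2 := L !₂[1, 0] with hp
  set q : E2 := L !₂[0, 1] with hq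
  have hL : ∀ x : E2, L x = x 0 • p + x 1 • q := by
    intro x
    have h1 : x = x 0 • (!₂[1, 0] : E2) + x 1 • (!₂[0, 1] : E2) := by
      apply ext2 <;> simp
    conv_lhs => rw [h1]
    rw [map_add, map_smul, map_smul]
  have hi : ∀ x y : E2, inner ℝ (L x) (L y) = inner ℝ x y := fun x y => L.inner_map_map x y
  have n1 : p 0 * p 0 + p 1 * p 1 = 1 := by
    have := hi !₂[1, 0] !₂[1, 0]
    simp only [← hp, PiLp.inner_apply, Fin.sum_univ_two] at this
    simp at this
    linear_combination this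
  have n2 : q 0 * q 0 + q 1 * q 1 = 1 := by
    have := hi !₂[0, 1] !₂[0, 1]
    simp only [← hq, PiLp.inner_apply, Fin.sum_univ_two] at this
    simp at this
    linear_combination this
  have n3 : p 0 * q 0 + p 1 * q 1 = 0 := by
    have := hi !₂[1, 0] !₂[0, 1]
    simp only [← hp, ← hq, PiLp.inner_apply, Fin.sum_univ_two] at this
    simp at this
    linarith
  have hs : (p 0 * q 1 - p 1 * q 0) ^ 2 = 1 := by
    linear_combination (q 0 * q 0 + q 1 * q 1) * n1 + n2 - (p 0 * q 0 + p 1 * q 1) * n3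
  set s := p 0 * q 1 - p 1 * q 0 with hsdef
  have a1 : s * q 1 = p 0 := by
    rw [hsdef]
    linear_combination p 0 * n2 - q 0 * n3
  have a2 : s * q 0 = - p 1 := by
    rw [hsdef]
    linear_combination (-p 1) * n2 + q 1 * n3
  have a3 : s * p 0 = q 1 := by
    rw [hsdef]
    linear_combination q 1 * n1 - p 1 * n3
  have a4 : s * p 1 = - q 0 := by
    rw [hsdef]
    linear_combination (-q 0) * n1 + p 0 * n3
  have key : ∀ x, L (rot x) = s • rot (L x) := by
    intro x
    rw [hL, hL x]
    apply ext2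
    · simp only [PiLp.add_apply, PiLp.smul_apply, smul_eq_mul, rot_zero, rot_one]
      linear_combination x 0 * a4 + x 1 * a1
    · simp only [PiLp.add_apply, PiLp.smul_apply, smul_eq_mul, rot_zero, rot_one]
      linear_combination (-x 0) * a3 - x 1 * a2
  have hs2 : s = 1 ∨ s = -1 := by
    have : (s - 1) * (s + 1) = 0 := by linear_combination hs
    rcases mul_eq_zero.1 this with h | h
    · left; linarith
    · right; linarith
  rcases hs2 with h | h
  · left
    intro x
    rw [key, h, one_smul]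
  · right
    intro x
    rw [key, h, neg_smul, one_smul]

section

variable {f : E2 → E2} {r : ℝ} {L : E2 ≃ₗᵢ[ℝ] E2}

/-- the similarity as a homeomorphism -/
noncomputable def homeo (hr : 0 < r) (L : E2 ≃ₗᵢ[ℝ] E2) (b : E2) : E2 ≃ₜ E2 :=
  L.toHomeomorph.trans ((Homeomorph.smulOfNeZero r hr.ne').trans (Homeomorph.addLeft b))

theorem homeo_apply (hr : 0 < r) (hf : ∀ x y, f (x + y) = f x + r • L y) (x : E2) :
    homeo hr L (f 0) x = f x := by
  have h := hf 0 x
  rw [zero_add] at h
  rw [h]
  rfl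

theorem homeo_eq (hr : 0 < r) (hf : ∀ x y, f (x + y) = f x + r • L y) :
    ⇑(homeo hr L (f 0)) = f := funext fun x => homeo_apply hr hf x

theorem vol_image (hr : 0 < r) (hf : ∀ x y, f (x + y) = f x + r • L y) (S : Set E2) :
    volume (f '' S) = ENNReal.ofReal (r ^ 2) * volume S := by
  have h1 : f '' S = (fun y => f 0 + y) '' (r • (L '' S)) := by
    ext y
    constructor
    · rintro ⟨x, hx, rfl⟩
      refine ⟨r • L x, ⟨L x, ⟨x, hx, rfl⟩, rfl⟩, ?_⟩
      have h := hf 0 x
      rw [zero_add] at h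
      exact h.symm
    · rintro ⟨_, ⟨_, ⟨x, hx, rfl⟩, rfl⟩, rfl⟩
      refine ⟨x, hx, ?_⟩
      have h := hf 0 x
      rw [zero_add] at h
      exact h
  have h2 : volume (L '' S) = volume S := by
    have h3 : L '' S = L.symm ⁻¹' S := by
      ext y
      constructor
      · rintro ⟨x, hx, rfl⟩
        simpa using hx
      · intro hy
        exact ⟨L.symm y, hy, by simp⟩
    rw [h3]
    exact L.symm.measurePreserving.measure_preimage_emb
      L.symm.toHomeomorph.measurableEmbedding S
  rw [h1, image_add_left, measure_preimage_add, Measure.addHaar_smul, h2, finrank_euclideanSpace,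
    Fintype.card_fin, abs_of_nonneg (by positivity)]

theorem image_line (hr : 0 < r) (hf : ∀ x y, f (x + y) = f x + r • L y) (P u : E2) :
    f '' line P u = line (f P) (L u) := by
  ext y
  constructor
  · rintro ⟨_, ⟨s, rfl⟩, rfl⟩
    refine ⟨r * s, ?_⟩
    rw [hf, map_smul, smul_smul]
  · rintro ⟨s, rfl⟩
    refine ⟨P + (r⁻¹ * s) • u, ⟨_, rfl⟩, ?_⟩
    rw [hf, map_smul, smul_smul, ← mul_assoc, mul_inv_cancel₀ hr.ne', one_mul]

theorem line_neg (P u : E2) : line P (-u) = line P u := by
  ext y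
  constructor
  · rintro ⟨s, rfl⟩
    exact ⟨-s, by rw [smul_neg, neg_smul]⟩
  · rintro ⟨s, rfl⟩
    exact ⟨-s, by rw [smul_neg, neg_smul, neg_neg]⟩

theorem image_quad (hr : 0 < r) (hf : ∀ x y, f (x + y) = f x + r • L y) (P u v : E2)
    (h : (L u = v ∧ L (rot u) = rot v) ∨ (L u = rot v ∧ L (rot u) = v)) :
    f '' quad P u = quad (f P) v := by
  ext y
  constructor
  · rintro ⟨_, ⟨a, b, ha, hb, rfl⟩, rfl⟩
    rcases h with ⟨h1, h2⟩ | ⟨h1, h2⟩
    · refine ⟨r * a, r * b, by positivity, by positivity, ?_⟩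
      rw [hf, hf, map_smul, map_smul, smul_smul, smul_smul, h1, h2]
    · refine ⟨r * b, r * a, by positivity, by positivity, ?_⟩
      rw [hf, hf, map_smul, map_smul, smul_smul, smul_smul, h1, h2]
      abel
  · rintro ⟨a, b, ha, hb, rfl⟩
    rcases h with ⟨h1, h2⟩ | ⟨h1, h2⟩
    · refine ⟨P + (r⁻¹ * a) • u + (r⁻¹ * b) • rot u, ⟨_, _, by positivity, by positivity, rfl⟩, ?_⟩
      rw [hf, hf, map_smul, map_smul, smul_smul, smul_smul, h1, h2, ← mul_assoc, ← mul_assoc,
        mul_inv_cancel₀ hr.ne', one_mul, one_mul]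
    · refine ⟨P + (r⁻¹ * b) • u + (r⁻¹ * a) • rot u, ⟨_, _, by positivity, by positivity, rfl⟩, ?_⟩
      rw [hf, hf, map_smul, map_smul, smul_smul, smul_smul, h1, h2, ← mul_assoc, ← mul_assoc,
        mul_inv_cancel₀ hr.ne', one_mul, one_mul]
      abel

theorem rot_neg' (u : E2) : rot (-u) = -rot u := by
  apply ext2 <;> simp

/-- a similarity transports quadrisections -/
theorem transport (hr : 0 < r) (hf : ∀ x y, f (x + y) = f x + r • L y) {R : Set E2}
    {q : Set (Set E2)} (hq : IsQuadrisection R q) :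
    IsQuadrisection (f '' R) ((fun l => f '' l) '' q) := by
  obtain ⟨P, u, hP, hu, rfl, hk⟩ := hq
  have hinj : Function.Injective f := by
    rw [← homeo_eq hr hf]
    exact (homeo hr L (f 0)).injective
  have hLu : L u ≠ 0 := by
    intro h
    exact hu ((map_eq_zero_iff L L.injective).1 h)
  -- areas
  have hvol : ∀ k v, (f '' quad P (rot^[k] u) = quad (f P) v) →
      volume (f '' R ∩ quad (f P) v) = volume (f '' R) / 4 := by
    intro k v h
    rw [← h, ← image_inter hinj, vol_image hr hf, hk k, vol_image hr hf, mul_div_assoc]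
  refine ⟨f P, L u, ?_, hLu, ?_, ?_⟩
  · have h1 := (homeo hr L (f 0)).image_interior R
    rw [homeo_eq hr hf] at h1
    rw [← h1]
    exact ⟨P, hP, rfl⟩
  · rw [image_pair, image_line hr hf, image_line hr hf]
    rcases sign_form L with h | h
    · rw [h]
    · rw [h, line_neg]
  · have r2 : rot^[2] u = -u := by
      show rot (rot u) = -u
      rw [rot_rot]
    have r3 : rot^[3] u = -rot u := by
      show rot (rot (rot u)) = -rot u
      rw [rot_rot]
    intro k
    refine four_cases (fun v => volume (f '' R ∩ quad (f P) v) = volume (f '' R) / 4) (L u)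
      ?_ ?_ ?_ ?_ k
    all_goals rcases sign_form L with h | h
    · exact hvol 0 _ (image_quad hr hf P u _ (Or.inl ⟨rfl, h u⟩))
    · refine hvol 3 _ ?_
      rw [r3]
      refine image_quad hr hf P _ _ (Or.inr ⟨?_, ?_⟩)
      · rw [map_neg, h, neg_neg]
      · rw [rot_neg', rot_rot, neg_neg]
    · exact hvol 1 _ (image_quad hr hf P (rot u) _ (Or.inl ⟨h u, h (rot u) ▸ by rw [h]⟩))
    · refine hvol 2 _ ?_
      rw [r2]
      refine image_quad hr hf P _ _ (Or.inr ⟨?_, ?_⟩)
      · rw [map_neg, rot_rot]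
      · rw [rot_neg', map_neg, h, neg_neg]
    · refine hvol 2 _ ?_
      rw [r2]
      refine image_quad hr hf P _ _ (Or.inl ⟨?_, ?_⟩)
      · rw [map_neg]
      · rw [rot_neg', map_neg, h, rot_neg']
    · refine hvol 1 _ (image_quad hr hf P (rot u) _ (Or.inr ⟨?_, ?_⟩))
      · rw [h, rot_neg']
      · rw [rot_rot, map_neg]
    · refine hvol 3 _ ?_
      rw [r3]
      refine image_quad hr hf P _ _ (Or.inl ⟨?_, ?_⟩)
      · rw [map_neg, h]
      · rw [rot_neg', rot_rot, neg_neg, rot_neg', rot_rot, neg_neg]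
    · refine hvol 0 _ (image_quad hr hf P u _ (Or.inr ⟨?_, ?_⟩))
      · rw [rot_neg', rot_rot, neg_neg]
      · rw [h]

theorem le_of_sim (hr : 0 < r) (hf : ∀ x y, f (x + y) = f x + r • L y) (R : Set E2) :
    {q | IsQuadrisection R q}.encard ≤ {q | IsQuadrisection (f '' R) q}.encard := by
  have hinj : Function.Injective f := by
    rw [← homeo_eq hr hf]
    exact (homeo hr L (f 0)).injective
  refine encard_le_encard_of_injOn (f := fun q => (fun l => f '' l) '' q) ?_ ?_
  · intro q hq
    exact transport hr hf hq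
  · exact (hinj.image_injective.image_injective).injOn

end

/-- **SIM** -/
theorem SIM : P_SIM := by
  intro R f r hr hf
  obtain ⟨L, hL⟩ := exists_form hr hf
  refine le_antisymm ?_ (le_of_sim hr hL R)
  obtain ⟨Φ, hΦ⟩ : ∃ Φ : E2 ≃ₜ E2, ∀ x, Φ x = f x := ⟨homeo hr L (f 0), homeo_apply hr hL⟩
  have hinv : ∀ x y, dist (Φ.symm x) (Φ.symm y) = r⁻¹ * dist x y := by
    intro x y
    have h := hf (Φ.symm x) (Φ.symm y)
    rw [← hΦ, ← hΦ, Homeomorph.apply_symm_apply, Homeomorph.apply_symm_apply] at h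
    rw [h, ← mul_assoc, inv_mul_cancel₀ hr.ne', one_mul]
  obtain ⟨L', hL'⟩ := exists_form (inv_pos.2 hr) hinv
  have h := le_of_sim (inv_pos.2 hr) hL' (f '' R)
  have h2 : Φ.symm '' (f '' R) = R := by
    rw [image_image]
    have : (fun x => Φ.symm (f x)) = id := by
      funext x
      rw [← hΦ, Homeomorph.symm_apply_apply]
      rfl
    rw [this, image_id]
  rw [h2] at h
  exact h

end Pool.Agent.W2helper17.QD
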